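import Mathlib

/-!
# The Diophantine equation behind 2-near perfect numbers `2 ^ k * p ^ m`

With `M = 2 ^ (k + 1)` and `G m = 1 + p + ⋯ + p ^ (m - 1)`, the number `2 ^ k * p ^ m` is 2-near perfect with
omitted divisors `d₁`, `d₂` iff `M * G m = G (m + 1) + d₁ + d₂`.
-/

set_option autoImplicit false

namespace Q239.Near

/-- `1 + p + ⋯ + p ^ (m - 1)`. -/
def G (p m : ℕ) : ℕ := ∑ i ∈ Finset.range m, p ^ i

theorem G_zero (p : ℕ) : G p 0 = 0 := by simp [G]

theorem G_one (p : ℕ) : G p 1 = 1 := by simp [G]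

theorem G_succ (p m : ℕ) : G p (m + 1) = G p m + p ^ m := Finset.sum_range_succ _ _

theorem G_succ' (p m : ℕ) : G p (m + 1) = p * G p m + 1 := by
  induction m with
  | zero => simp [G]
  | succ m ih =>
    have h : p * G p (m + 1) = p * G p m + p ^ (m + 1) := by rw [G_succ p m]; ring
    rw [G_succ p (m + 1), h, ih]
    ring

theorem G_two (p : ℕ) : G p 2 = p + 1 := by rw [G_succ', G_one, mul_one]

theorem geom (p m : ℕ) : p * G p m + 1 = G p m + p ^ m := by rw [← G_succ', G_succ]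

theorem coprime_G (p m : ℕ) : Nat.Coprime p (G p (m + 1)) := by
  rw [G_succ']
  simp

theorem G_add (p f g : ℕ) : G p (f + g) = p ^ g * G p f + G p g := by
  induction f with
  | zero => simp [G_zero]
  | succ f ih =>
    rw [show f + 1 + g = (f + g) + 1 by ring, G_succ, ih, G_succ, pow_add]
    ring

/-- Powers of two: `2 ^ a < 2 ^ b` gives `2 * 2 ^ a ≤ 2 ^ b`. -/
theorem two_pow_double {a b : ℕ} (h : 2 ^ a < 2 ^ b) : 2 * 2 ^ a ≤ 2 ^ b := by
  have : a < b := (Nat.pow_lt_pow_iff_right (by norm_num)).1 h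
  calc 2 * 2 ^ a = 2 ^ (a + 1) := by ring
    _ ≤ 2 ^ b := Nat.pow_le_pow_right (by norm_num) this

theorem two_pow_dvd {a b : ℕ} (h : 2 ^ a ≤ 2 ^ b) : (2 : ℕ) ^ a ∣ 2 ^ b :=
  pow_dvd_pow 2 ((Nat.pow_le_pow_iff_right (by norm_num)).1 h)

/-- A power of two that is `≥ 2 ^ j` is divisible by `2 ^ j`. -/
theorem dvd_of_le {x j : ℕ} (h : 2 ^ j ≤ 2 ^ x) : (2 : ℕ) ^ j ∣ 2 ^ x := two_pow_dvd h

theorem odd_pow_two {a : ℕ} (h : ¬ 2 ∣ 2 ^ a) : 2 ^ a = 1 := by
  rcases Nat.eq_zero_or_pos a with rfl | ha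
  · simp
  · exact absurd (dvd_pow_self 2 ha.ne') h

/-- Common facts on the parity of `M = 2 ^ (k + 1)`. -/
theorem two_pow_mod4 {k : ℕ} (h : 2 < 2 ^ (k + 1)) : 2 ^ (k + 1) % 4 = 0 := by
  have : (2 : ℕ) ^ 2 ∣ 2 ^ (k + 1) := pow_dvd_pow 2 (by
    by_contra hc
    have : k = 0 := by omega
    subst this
    norm_num at h)
  exact Nat.mod_eq_zero_of_dvd (by simpa using this)

/-- An odd square plus one is not a power of two larger than 2. -/
theorem ne_sq_add_one {p k : ℕ} (hp : p % 2 = 1) (hM : 2 < 2 ^ (k + 1)) : 2 ^ (k + 1) ≠ p ^ 2 + 1 := by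
  intro h
  have h1 := two_pow_mod4 hM
  obtain ⟨t, rfl⟩ : ∃ t, p = 2 * t + 1 := ⟨p / 2, by omega⟩
  rw [h] at h1
  have : (2 * t + 1) ^ 2 + 1 = 4 * (t ^ 2 + t) + 2 := by ring
  omega

theorem two_pow_ne {p k : ℕ} (hp : 3 ≤ p) (hodd : p % 2 = 1) : 2 ^ k ≠ p := by
  intro h
  rcases Nat.eq_zero_or_pos k with rfl | hk
  · simp at h; omega
  · have : 2 ∣ 2 ^ k := dvd_pow_self 2 hk.ne'
    omega

theorem G_ge {p m : ℕ} (hm : 3 ≤ m) : 1 + p + p ^ 2 ≤ G p m := by
  obtain ⟨j, rfl⟩ : ∃ j, m = 3 + j := ⟨m - 3, by omega⟩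
  have : G p 3 = 1 + p + p ^ 2 := by rw [G_succ, G_two]; ring
  rw [← this]
  unfold G
  exact Finset.sum_le_sum_of_subset (Finset.range_mono (by omega))

/-! ### Case α1: `b₁ < b₂ ≤ m - 1`

`n = 2 ^ k * p ^ m`, `m = n' + 2`. -/

theorem caseA1_bound {p k n a1 a2 b1 b2 : ℕ} (hp : 3 ≤ p) (hodd : p % 2 = 1) (ha1 : a1 ≤ k) (ha2 : a2 ≤ k)
    (hb : b1 < b2) (hb2 : b2 ≤ n + 1)
    (h : 2 ^ (k + 1) * G p (n + 2) = G p (n + 3) + 2 ^ a1 * p ^ b1 + 2 ^ a2 * p ^ b2) :
    2 ^ (k + 1) < 2 * p := by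
  have hd1 : 2 ^ a1 * p ^ b1 ≤ 2 ^ k * p ^ n :=
    Nat.mul_le_mul (Nat.pow_le_pow_right (by norm_num) ha1) (Nat.pow_le_pow_right (by omega) (by omega))
  have hd2 : 2 ^ a2 * p ^ b2 ≤ 2 ^ k * p ^ (n + 1) :=
    Nat.mul_le_mul (Nat.pow_le_pow_right (by norm_num) ha2) (Nat.pow_le_pow_right (by omega) (by omega))
  have hne : 2 ^ k ≠ p := two_pow_ne hp hodd
  have g1 := geom p n
  have g2 : G p (n + 2) = G p n + p ^ n + p * p ^ n := by
    rw [G_succ, G_succ, pow_succ]; ring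
  have g3 : G p (n + 3) = G p n + p ^ n + p * p ^ n + p ^ 2 * p ^ n := by
    rw [G_succ, g2, show n + 2 = 2 + n by ring, pow_add]
  rw [g2, g3] at h
  have hM : 2 ^ (k + 1) = 2 * 2 ^ k := by ring
  rw [pow_succ p n] at hd2
  have hX : 1 ≤ p ^ n := Nat.one_le_pow _ _ (by omega)
  rw [hM] at h ⊢
  generalize 2 ^ k = K at *
  generalize p ^ n = X at *
  generalize G p n = T at *
  generalize 2 ^ a1 * p ^ b1 = d1 at *
  generalize 2 ^ a2 * p ^ b2 = d2 at *
  by_contra hc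
  have hK : p + 1 ≤ K := by omega
  have h1 : 2 * K * (T + X + p * X) ≤ T + X + p * X + p ^ 2 * X + K * X + K * (X * p) := by linarith
  have h2 : K * (2 * T + X + p * X) ≤ T + X + p * X + p ^ 2 * X := by nlinarith
  have h3 : (p + 1) * (2 * T + X + p * X) ≤ K * (2 * T + X + p * X) := Nat.mul_le_mul_right _ hK
  nlinarith

/-- Case `b₁ < b₂ ≤ m - 1`: then `m = 3` and `M = p + 1`. -/
theorem caseA1 {p k n a1 a2 b1 b2 : ℕ} (hpp : p.Prime) (hp : 3 ≤ p) (hodd : p % 2 = 1) (ha1 : a1 ≤ k)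
    (ha2 : a2 ≤ k) (hb : b1 < b2) (hb2 : b2 ≤ n + 1) (hMp : p < 2 ^ (k + 1))
    (h : 2 ^ (k + 1) * G p (n + 2) = G p (n + 3) + 2 ^ a1 * p ^ b1 + 2 ^ a2 * p ^ b2) :
    n = 1 ∧ 2 ^ (k + 1) = p + 1 := by
  have hM2 := caseA1_bound hp hodd ha1 ha2 hb hb2 h
  have hA1 : 2 * 2 ^ a1 ≤ 2 ^ (k + 1) := by
    calc 2 * 2 ^ a1 = 2 ^ (a1 + 1) := by ring
      _ ≤ 2 ^ (k + 1) := Nat.pow_le_pow_right (by norm_num) (by omega)
  have hA2 : 2 * 2 ^ a2 ≤ 2 ^ (k + 1) := by
    calc 2 * 2 ^ a2 = 2 ^ (a2 + 1) := by ring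
      _ ≤ 2 ^ (k + 1) := Nat.pow_le_pow_right (by norm_num) (by omega)
  obtain ⟨c2, rfl⟩ : ∃ c, b2 = c + 1 := ⟨b2 - 1, by omega⟩
  obtain ⟨δ, hδ⟩ : ∃ δ, 2 ^ (k + 1) = p + δ := ⟨2 ^ (k + 1) - p, by omega⟩
  have hδ1 : 1 ≤ δ := by omega
  have hδp : δ < p := by omega
  -- `δ G m = 1 + d₁ + d₂`
  have h' : δ * G p (n + 2) = 1 + 2 ^ a1 * p ^ b1 + 2 ^ a2 * p ^ (c2 + 1) := by
    rw [hδ, show n + 3 = (n + 2) + 1 by ring, G_succ' p (n + 2)] at h
    nlinarith
  have gg : G p (n + 2) = p * G p (n + 1) + 1 := G_succ' p (n + 1)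
  rcases Nat.eq_zero_or_pos b1 with rfl | hb1
  · -- `b₁ = 0`
    exfalso
    rw [pow_zero, mul_one] at h'
    have h1 : δ % p = (1 + 2 ^ a1) % p := by
      have e1 : δ * G p (n + 2) = δ + p * (δ * G p (n + 1)) := by rw [gg]; ring
      have e2 : 1 + 2 ^ a1 + 2 ^ a2 * p ^ (c2 + 1) = 1 + 2 ^ a1 + p * (2 ^ a2 * p ^ c2) := by ring
      rw [e1, e2] at h'
      have := congrArg (· % p) h'
      simpa [Nat.add_mul_mod_self_left] using this
    rw [Nat.mod_eq_of_lt hδp] at h1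
    have hle : 1 + 2 ^ a1 ≤ p := by omega
    rcases hle.lt_or_eq with hlt | heq
    · rw [Nat.mod_eq_of_lt hlt] at h1
      -- `δ = 1 + A1`
      have h2 : δ * (p * G p (n + 1)) = 2 ^ a2 * p ^ (c2 + 1) := by
        rw [gg] at h'
        nlinarith
      have hodd' : Nat.Coprime δ 2 := by
        rw [Nat.coprime_two_right]
        rcases Nat.even_or_odd δ with he | ho
        · exfalso
          have h3 : p % 2 = 0 := by
            have : 2 ∣ 2 ^ (k + 1) := dvd_pow_self 2 (by omega)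
            obtain ⟨t, ht⟩ := he
            omega
          omega
        · exact ho
      have h3 : δ ∣ p ^ (c2 + 1) :=
        (Nat.Coprime.pow_right a2 hodd').dvd_of_dvd_mul_left ⟨_, h2.symm⟩
      obtain ⟨e, -, he⟩ := (Nat.dvd_prime_pow hpp).1 h3
      rcases Nat.eq_zero_or_pos e with rfl | he0
      · rw [pow_zero] at he
        have : 0 < 2 ^ a1 := by positivity
        omega
      · have : p ≤ δ := by
          rw [he]
          exact Nat.le_self_pow he0.ne' p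
        omega
    · rw [heq, Nat.mod_self] at h1
      omega
  · -- `b₁ ≥ 1`
    obtain ⟨c1, rfl⟩ : ∃ c, b1 = c + 1 := ⟨b1 - 1, by omega⟩
    have h1 : δ = 1 := by
      have e1 : δ * G p (n + 2) = δ + p * (δ * G p (n + 1)) := by rw [gg]; ring
      have e2 : 1 + 2 ^ a1 * p ^ (c1 + 1) + 2 ^ a2 * p ^ (c2 + 1) =
        1 + p * (2 ^ a1 * p ^ c1 + 2 ^ a2 * p ^ c2) := by ring
      rw [e1, e2] at h'
      have h4 := congrArg (· % p) h'
      simp only [Nat.add_mul_mod_self_left] at h4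
      rwa [Nat.mod_eq_of_lt hδp, Nat.mod_eq_of_lt (by omega)] at h4
    subst h1
    have h2 : G p (n + 1) = 2 ^ a1 * p ^ c1 + 2 ^ a2 * p ^ c2 := by
      rw [gg, one_mul] at h'
      have : p * G p (n + 1) = p * (2 ^ a1 * p ^ c1 + 2 ^ a2 * p ^ c2) := by
        rw [pow_succ, pow_succ] at h'
        nlinarith
      exact Nat.eq_of_mul_eq_mul_left (by omega) this
    have hc2 : 1 ≤ c2 := by omega
    obtain ⟨e2, rfl⟩ : ∃ c, c2 = c + 1 := ⟨c2 - 1, by omega⟩
    have hA1p : 2 ^ a1 < p := by omega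
    have hA2p : 2 ^ a2 < p := by omega
    rcases Nat.eq_zero_or_pos c1 with rfl | hc1
    · rw [pow_zero, mul_one] at h2
      rw [G_succ' p n] at h2
      have h3 : 2 ^ a1 = 1 := by
        have h4 := congrArg (· % p) h2
        have e3 : 2 ^ a1 + 2 ^ a2 * p ^ (e2 + 1) = 2 ^ a1 + p * (2 ^ a2 * p ^ e2) := by ring
        rw [e3, add_comm] at h4
        simp only [Nat.add_mul_mod_self_left] at h4
        rw [Nat.mod_eq_of_lt (by omega : 1 < p), Nat.mod_eq_of_lt hA1p] at h4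
        exact h4.symm
      rw [h3] at h2
      have h5 : G p n = 2 ^ a2 * p ^ e2 := by
        have : p * G p n = p * (2 ^ a2 * p ^ e2) := by
          rw [pow_succ] at h2
          nlinarith
        exact Nat.eq_of_mul_eq_mul_left (by omega) this
      have hn : n ≠ 0 := by
        rintro rfl
        rw [G_zero] at h5
        have : 0 < 2 ^ a2 * p ^ e2 := by positivity
        omega
      obtain ⟨j, rfl⟩ : ∃ j, n = j + 1 := ⟨n - 1, by omega⟩
      have he2 : e2 = 0 := by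
        by_contra hne
        have h6 := coprime_G p j
        rw [h5] at h6
        have : p ∣ 2 ^ a2 * p ^ e2 := (dvd_pow_self p hne).mul_left _
        have := Nat.Coprime.eq_one_of_dvd h6 this
        omega
      rw [he2, pow_zero, mul_one, G_succ'] at h5
      have hj : j = 0 := by
        by_contra hne
        obtain ⟨i, rfl⟩ : ∃ i, j = i + 1 := ⟨j - 1, by omega⟩
        rw [G_succ'] at h5
        have e4 : p * (p * G p i + 1) = p * (p * G p i) + p := by ring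
        have e5 := Nat.zero_le (p * (p * G p i))
        omega
      exact ⟨by omega, hδ⟩
    · exfalso
      obtain ⟨e1, rfl⟩ : ∃ c, c1 = c + 1 := ⟨c1 - 1, by omega⟩
      have h6 := coprime_G p n
      rw [h2] at h6
      have : p ∣ 2 ^ a1 * p ^ (e1 + 1) + 2 ^ a2 * p ^ (e2 + 1) :=
        dvd_add ((dvd_pow_self p (by omega)).mul_left _) ((dvd_pow_self p (by omega)).mul_left _)
      have := Nat.Coprime.eq_one_of_dvd h6 this
      omega

/-! ### Case α2: `b₁ = b₂ = b ≤ m - 1` -/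

theorem caseA2_bound {p k n a1 a2 b : ℕ} (hp : 3 ≤ p) (ha : a1 < a2) (ha2 : a2 ≤ k)
    (hb2 : b ≤ n + 1)
    (h : 2 ^ (k + 1) * G p (n + 2) = G p (n + 3) + (2 ^ a1 + 2 ^ a2) * p ^ b) :
    4 * (2 ^ a1 + 2 ^ a2) ≤ 3 * 2 ^ (k + 1) ∧ 2 ^ (k + 1) < 4 * p := by
  have h1 : 2 * 2 ^ a1 ≤ 2 ^ a2 := two_pow_double (Nat.pow_lt_pow_right (by norm_num) ha)
  have h2 : 2 * 2 ^ a2 ≤ 2 ^ (k + 1) := by
    calc 2 * 2 ^ a2 = 2 ^ (a2 + 1) := by ring
      _ ≤ 2 ^ (k + 1) := Nat.pow_le_pow_right (by norm_num) (by omega)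
  refine ⟨by omega, ?_⟩
  have hd : (2 ^ a1 + 2 ^ a2) * p ^ b ≤ (2 ^ a1 + 2 ^ a2) * p ^ (n + 1) :=
    Nat.mul_le_mul_left _ (Nat.pow_le_pow_right (by omega) (by omega))
  have g1 := geom p n
  have g2 : G p (n + 2) = G p n + p ^ n + p * p ^ n := by
    rw [G_succ, G_succ, pow_succ]; ring
  have g3 : G p (n + 3) = G p n + p ^ n + p * p ^ n + p ^ 2 * p ^ n := by
    rw [G_succ, g2, show n + 2 = 2 + n by ring, pow_add]
  rw [g2, g3] at h
  rw [pow_succ p n] at hd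
  have hX : 1 ≤ p ^ n := Nat.one_le_pow _ _ (by omega)
  have hC : 4 * ((2 ^ a1 + 2 ^ a2) * (p ^ n * p)) ≤ 3 * 2 ^ (k + 1) * (p ^ n * p) := by
    calc 4 * ((2 ^ a1 + 2 ^ a2) * (p ^ n * p)) = (4 * (2 ^ a1 + 2 ^ a2)) * (p ^ n * p) := by ring
      _ ≤ 3 * 2 ^ (k + 1) * (p ^ n * p) := Nat.mul_le_mul_right _ (by omega)
  generalize 2 ^ (k + 1) = M at *
  generalize (2 ^ a1 + 2 ^ a2) * p ^ b = D at *
  generalize (2 ^ a1 + 2 ^ a2) * (p ^ n * p) = D' at *
  generalize p ^ n = X at *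
  generalize G p n = T at *
  by_contra hc
  have hM : 4 * p ≤ M := by omega
  have h3 : M * (4 * T + 4 * X + p * X) ≤ 4 * (T + X + p * X + p ^ 2 * X) := by nlinarith
  have h4 : 4 * p * (4 * T + 4 * X + p * X) ≤ M * (4 * T + 4 * X + p * X) := Nat.mul_le_mul_right _ hM
  nlinarith

/-- Case `b₁ = b₂ = b ≤ m - 1`: then `m = 2`, `p = 3`, `M = 4`. -/
theorem caseA2 {p k n a1 a2 b : ℕ} (hpp : p.Prime) (hp : 3 ≤ p) (hodd : p % 2 = 1) (ha : a1 < a2)
    (ha2 : a2 ≤ k) (hb2 : b ≤ n + 1) (hMp : p < 2 ^ (k + 1))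
    (h : 2 ^ (k + 1) * G p (n + 2) = G p (n + 3) + (2 ^ a1 + 2 ^ a2) * p ^ b) :
    n = 0 ∧ p = 3 ∧ k = 1 := by
  obtain ⟨hC, hM4⟩ := caseA2_bound hp ha ha2 hb2 h
  have hA12 : 2 * 2 ^ a1 ≤ 2 ^ a2 := two_pow_double (Nat.pow_lt_pow_right (by norm_num) ha)
  have hA1pos : 1 ≤ 2 ^ a1 := Nat.one_le_two_pow
  have hMmod := two_pow_mod4 (k := k) (by omega)
  obtain ⟨δ, hδ⟩ : ∃ δ, 2 ^ (k + 1) = p + δ := ⟨2 ^ (k + 1) - p, by omega⟩
  have hδ1 : 1 ≤ δ := by omega
  have h' : δ * G p (n + 2) = 1 + (2 ^ a1 + 2 ^ a2) * p ^ b := by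
    rw [hδ, show n + 3 = (n + 2) + 1 by ring, G_succ' p (n + 2)] at h
    nlinarith
  have gg : G p (n + 2) = p * G p (n + 1) + 1 := G_succ' p (n + 1)
  rcases Nat.eq_zero_or_pos b with rfl | hb
  · rw [pow_zero, mul_one] at h'
    have hX : 1 ≤ G p (n + 1) := by rw [G_succ']; omega
    have h1 : 4 * (δ * G p (n + 2)) ≤ 4 + 3 * (p + δ) := by rw [h']; omega
    rw [gg] at h1
    have h2 : δ = 1 := by
      by_contra hne
      have : 2 ≤ δ := by omega
      nlinarith [Nat.mul_le_mul_left (δ * p) hX, Nat.mul_le_mul_right p this]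
    subst h2
    have h3 : 4 * (p * G p (n + 1)) ≤ 3 * p + 3 := by omega
    have hp3 : p = 3 := by
      have := Nat.mul_le_mul_left p hX
      omega
    subst hp3
    have hn : n = 0 := by
      by_contra hne
      obtain ⟨j, rfl⟩ : ∃ j, n = j + 1 := ⟨n - 1, by omega⟩
      rw [G_succ', G_succ'] at h3
      omega
    refine ⟨hn, rfl, ?_⟩
    have : 2 ^ (k + 1) = 2 ^ 2 := by rw [hδ]; norm_num
    have := Nat.pow_right_injective (le_refl 2) this
    omega
  · exfalso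
    obtain ⟨c, rfl⟩ : ∃ c, b = c + 1 := ⟨b - 1, by omega⟩
    -- `δ ≡ 1 mod p`
    have h1 : δ % p = 1 := by
      have e1 : δ * G p (n + 2) = δ + p * (δ * G p (n + 1)) := by rw [gg]; ring
      have e2 : 1 + (2 ^ a1 + 2 ^ a2) * p ^ (c + 1) = 1 + p * ((2 ^ a1 + 2 ^ a2) * p ^ c) := by ring
      rw [e1, e2] at h'
      have h4 := congrArg (· % p) h'
      simp only [Nat.add_mul_mod_self_left] at h4
      rwa [Nat.mod_eq_of_lt (by omega : 1 < p)] at h4
    obtain ⟨q, hq⟩ : ∃ q, δ = p * q + 1 := ⟨δ / p, by rw [← h1]; exact (Nat.div_add_mod δ p).symm⟩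
    have hq3 : q < 3 := by
      by_contra hne
      have : p * 3 ≤ p * q := Nat.mul_le_mul_left p (by omega)
      omega
    have h2 : q + (p * q + 1) * G p (n + 1) = (2 ^ a1 + 2 ^ a2) * p ^ c := by
      rw [hq, gg] at h'
      have : p * (q + (p * q + 1) * G p (n + 1)) = p * ((2 ^ a1 + 2 ^ a2) * p ^ c) := by
        rw [pow_succ] at h'
        nlinarith
      exact Nat.eq_of_mul_eq_mul_left (by omega) this
    have hX : 1 ≤ G p (n + 1) := by rw [G_succ']; omega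
    interval_cases q
    · -- `M = p + 1`
      simp only [mul_zero, zero_add, one_mul] at h2 hq
      have hc : c = 0 := by
        by_contra hne
        have h6 := coprime_G p n
        rw [h2] at h6
        have := Nat.Coprime.eq_one_of_dvd h6 ((dvd_pow_self p hne).mul_left _)
        omega
      subst hc
      rw [pow_zero, mul_one] at h2
      rcases Nat.eq_zero_or_pos n with rfl | hn
      · rw [zero_add, G_one] at h2
        omega
      · obtain ⟨j, rfl⟩ : ∃ j, n = j + 1 := ⟨n - 1, by omega⟩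
        have h7 : 1 ≤ G p (j + 1) := by rw [G_succ']; omega
        rw [G_succ'] at h2
        have := Nat.mul_le_mul_left p h7
        omega
    · -- `M = 2 p + 1`
      omega
    · -- `M = 3 p + 1`
      have hc : c = 0 := by
        by_contra hne
        obtain ⟨d, rfl⟩ : ∃ d, c = d + 1 := ⟨c - 1, by omega⟩
        have h3 : 3 % p = 0 := by
          have h8 : G p (n + 1) = p * G p n + 1 := G_succ' p n
          have e1 : 2 + (p * 2 + 1) * G p (n + 1) = 3 + p * (2 + (p * 2 + 1) * G p n) := by rw [h8]; ring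
          have e2 : (2 ^ a1 + 2 ^ a2) * p ^ (d + 1) = 0 + p * ((2 ^ a1 + 2 ^ a2) * p ^ d) := by ring
          rw [e1, e2] at h2
          have h4 := congrArg (· % p) h2
          simp only [Nat.add_mul_mod_self_left] at h4
          simpa using h4
        have h9 : p ∣ 3 := Nat.dvd_of_mod_eq_zero h3
        have h10 : p = 3 := by
          rcases (Nat.dvd_prime Nat.prime_three).1 h9 with h | h <;> omega
        subst h10
        omega
      subst hc
      rw [pow_zero, mul_one] at h2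
      rcases Nat.eq_zero_or_pos n with rfl | hn
      · rw [zero_add, G_one] at h2
        have ha1 : 2 ^ a1 = 1 := by
          apply odd_pow_two
          intro hd
          have : 2 ∣ 2 ^ a2 := hd.trans (two_pow_dvd (by omega))
          omega
        have hk : 16 ≤ 2 ^ (k + 1) := by
          have h16 : 8 < 2 ^ (k + 1) := by omega
          exact two_pow_double (a := 3) (by simpa using h16)
        have hk2 : 16 ∣ 2 ^ (k + 1) := by
          simpa using two_pow_dvd (a := 4) (b := k + 1) (by simpa using hk)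
        have ha2' : 8 < 2 ^ a2 := by omega
        have ha3 : 8 ∣ 2 ^ a2 := by
          simpa using two_pow_dvd (a := 3) (b := a2) (by simpa using ha2'.le)
        omega
      · obtain ⟨j, rfl⟩ : ∃ j, n = j + 1 := ⟨n - 1, by omega⟩
        have h7 : 1 ≤ G p (j + 1) := by rw [G_succ']; omega
        rw [G_succ'] at h2
        nlinarith [Nat.mul_le_mul_left p h7, Nat.mul_le_mul_left (p * p) h7]

end Q239.Near
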