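import Pool.Agent.Q239.Near.Arith

set_option autoImplicit false

namespace Q239.Near

/-- `1 + p ^ 3` is not a power of two. -/
theorem ne_cube_add_one {p x : ℕ} (hp : 3 ≤ p) (hodd : p % 2 = 1) : 2 ^ x ≠ p ^ 3 + 1 := by
  intro h
  obtain ⟨t, rfl⟩ : ∃ t, p = 2 * t + 1 := ⟨p / 2, by omega⟩
  have h1 : (4 * t ^ 2 + 2 * t + 1) ∣ 2 ^ x := by
    rw [h]
    exact ⟨2 * t + 2, by ring⟩
  have h2 : Nat.Coprime (4 * t ^ 2 + 2 * t + 1) (2 ^ x) := by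
    apply Nat.Coprime.pow_right
    rw [Nat.coprime_two_right]
    exact ⟨2 * t ^ 2 + t, by ring⟩
  have h3 := Nat.Coprime.eq_one_of_dvd h2 h1
  have : 1 ≤ t := by omega
  nlinarith

/-! ### Case β: `b₁ = b₂ = m` -/

theorem caseB {p k n a1 a2 : ℕ} (hp : 3 ≤ p) (hodd : p % 2 = 1) (ha : a1 < a2) (ha2 : a2 ≤ k)
    (hMp : p < 2 ^ (k + 1))
    (h : 2 ^ (k + 1) * G p (n + 2) = G p (n + 3) + (2 ^ a1 + 2 ^ a2) * p ^ (n + 2)) : False := by
  have hA1pos : 1 ≤ 2 ^ a1 := Nat.one_le_two_pow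
  have hA1M : 2 ^ a1 ∣ 2 ^ (k + 1) := pow_dvd_pow 2 (by omega)
  have hA2M : 2 ^ a2 ∣ 2 ^ (k + 1) := pow_dvd_pow 2 (by omega)
  have hA12 : 2 ^ a1 ∣ 2 ^ a2 := pow_dvd_pow 2 (by omega)
  obtain ⟨N, hN⟩ : ∃ N, 2 ^ (k + 1) = N + 1 := ⟨2 ^ (k + 1) - 1, by omega⟩
  have h1 : N * G p (n + 2) = p ^ (n + 2) * (1 + (2 ^ a1 + 2 ^ a2)) := by
    rw [hN, show n + 3 = (n + 2) + 1 by ring, G_succ p (n + 2)] at h
    nlinarith
  have hcop : Nat.Coprime (p ^ (n + 2)) (G p (n + 2)) := Nat.Coprime.pow_left _ (coprime_G p (n + 1))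
  obtain ⟨r, hr⟩ : p ^ (n + 2) ∣ N := hcop.dvd_of_dvd_mul_right ⟨_, h1⟩
  have hX : 0 < p ^ (n + 2) := by positivity
  have h2 : r * G p (n + 2) = 1 + (2 ^ a1 + 2 ^ a2) := by
    rw [hr, mul_assoc] at h1
    exact Nat.eq_of_mul_eq_mul_left hX h1
  have hr1 : 1 ≤ r := by
    by_contra hne
    have : r = 0 := by omega
    rw [this, zero_mul] at h2
    omega
  -- `M = (p - 1) C + p + r`
  have hgeom := geom p (n + 2)
  have h3 : 2 ^ (k + 1) + (2 ^ a1 + 2 ^ a2) = p * (2 ^ a1 + 2 ^ a2) + p + r := by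
    rw [hN, hr]
    have e1 : r * (p * G p (n + 2) + 1) = r * (G p (n + 2) + p ^ (n + 2)) := by rw [hgeom]
    have e2 : p * (r * G p (n + 2)) = p * (1 + (2 ^ a1 + 2 ^ a2)) := by rw [h2]
    nlinarith
  have h4 : 2 ^ a1 ∣ p + r := by
    have e1 : 2 ^ a1 ∣ 2 ^ (k + 1) + (2 ^ a1 + 2 ^ a2) := dvd_add hA1M (dvd_add (dvd_refl _) hA12)
    rw [h3, add_assoc] at e1
    exact (Nat.dvd_add_right ((dvd_add (dvd_refl _) hA12).mul_left p)).1 e1
  have h5 : 2 ^ a1 ≤ p + r := Nat.le_of_dvd (by omega) h4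
  obtain ⟨q, rfl⟩ : ∃ q, p = q + 1 := ⟨p - 1, by omega⟩
  have h3' : 2 ^ (k + 1) = q * 2 ^ a2 + (q * 2 ^ a1 + (q + 1) + r) := by nlinarith
  have h6 : 2 ^ a2 ∣ q * 2 ^ a1 + (q + 1) + r := by
    have e1 := hA2M
    rw [h3'] at e1
    exact (Nat.dvd_add_right (dvd_mul_left _ q)).1 e1
  have h7 : 2 ^ a2 ≤ q * 2 ^ a1 + (q + 1) + r := Nat.le_of_dvd (by omega) h6
  have hr1' : 2 ^ (k + 1) = r * (q + 1) ^ (n + 2) + 1 := by rw [hN, hr]; ring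
  have hMeven : 2 ^ (k + 1) % 2 = 0 := by
    have : 2 ∣ 2 ^ (k + 1) := dvd_pow_self 2 (by omega)
    omega
  rcases Nat.eq_zero_or_pos n with rfl | hn
  · -- `m = 2`
    rw [zero_add, G_two] at h2
    have hqe : q % 2 = 0 := by omega
    have ha1 : 2 ^ a1 = 1 := by
      apply odd_pow_two
      intro hd
      have h8 : 2 ∣ 2 ^ a2 := hd.trans hA12
      obtain ⟨t, ht⟩ : ∃ t, q + 1 + 1 = 2 * t := ⟨(q + 1 + 1) / 2, by omega⟩
      rw [ht] at h2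
      have e : r * (2 * t) = 2 * (r * t) := by ring
      omega
    have hrodd : r % 2 = 1 := by
      by_contra hne
      obtain ⟨t, ht⟩ : ∃ t, r = 2 * t := ⟨r / 2, by omega⟩
      rw [ht, mul_assoc] at hr1'
      omega
    rw [ha1] at h2 h7
    have hr2 : r < 2 := by
      by_contra hne
      have : 3 ≤ r := by omega
      have e : r * (q + 1 + 1) = r * q + 2 * r := by ring
      have e2 : 3 * q ≤ r * q := Nat.mul_le_mul_right _ this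
      omega
    have hr11 : r = 1 := by omega
    rw [hr11, one_mul] at hr1'
    exact ne_sq_add_one hodd (by omega) hr1'
  · have hG : 1 + (q + 1) + (q + 1) ^ 2 ≤ G (q + 1) (n + 2) := G_ge (by omega)
    have hr2 : r < 2 := by
      by_contra hne
      have : 2 ≤ r := by omega
      have e1 : r * (1 + (q + 1) + (q + 1) ^ 2) ≤ r * G (q + 1) (n + 2) := Nat.mul_le_mul_left _ hG
      have e2 : q * 2 ^ a1 ≤ q * (q + 1 + r) := Nat.mul_le_mul_left _ h5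
      nlinarith
    have hr11 : r = 1 := by omega
    subst hr11
    rw [one_mul] at hr1' h2
    rcases Nat.lt_or_ge n 2 with hn2 | hn2
    · have : n = 1 := by omega
      subst this
      exact ne_cube_add_one hp hodd hr1'
    · obtain ⟨j, rfl⟩ : ∃ j, n = j + 2 := ⟨n - 2, by omega⟩
      have hG' : 1 + (q + 1) + (q + 1) ^ 2 ≤ G (q + 1) (j + 2 + 1) := G_ge (by omega)
      rw [show j + 2 + 2 = (j + 2 + 1) + 1 by ring, G_succ'] at h2
      have e2 : q * 2 ^ a1 ≤ q * (q + 1 + 1) := Nat.mul_le_mul_left _ h5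
      have e3 : (q + 1) * (1 + (q + 1) + (q + 1) ^ 2) ≤ (q + 1) * G (q + 1) (j + 2 + 1) :=
        Nat.mul_le_mul_left _ hG'
      nlinarith

/-! ### Case γ: `b₁ = f < b₂ = m` -/

/-- In case γ, `M ≥ (p + 1) A`, where `A = 2 ^ a₂` belongs to the divisor `2 ^ a₂ p ^ m`. -/
theorem caseC_ratio {p k m a1 a2 f : ℕ} (hp : 3 ≤ p) (hodd : p % 2 = 1) (ha2 : a2 ≤ k)
    (h : 2 ^ (k + 1) * G p m = G p (m + 1) + 2 ^ a1 * p ^ f + 2 ^ a2 * p ^ m) :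
    ∃ P, 2 ^ (k + 1) = 2 * 2 ^ P * 2 ^ a2 ∧ p + 1 ≤ 2 * 2 ^ P := by
  refine ⟨k - a2, ?_, ?_⟩
  · rw [show k + 1 = 1 + (k - a2) + a2 by omega, pow_add, pow_add]
    simp
  · obtain ⟨P, hP⟩ : ∃ P, k = a2 + P := ⟨k - a2, by omega⟩
    rw [show k - a2 = P by omega]
    have hM : 2 ^ (k + 1) = 2 * 2 ^ P * 2 ^ a2 := by rw [hP]; ring
    have hd : 0 < 2 ^ a1 * p ^ f := by positivity
    have hgeom := geom p m
    rw [G_succ, hM] at h
    have hne : 2 ^ (P + 1) ≠ p := two_pow_ne hp hodd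
    have e : 2 ^ (P + 1) = 2 * 2 ^ P := by ring
    by_contra hc
    have h1 : 2 * 2 ^ P + 1 ≤ p := by omega
    have hA : 1 ≤ 2 ^ a2 := Nat.one_le_two_pow
    have h2 : (2 * 2 ^ P + 1) * (2 ^ a2 * G p m) ≤ p * (2 ^ a2 * G p m) := Nat.mul_le_mul_right _ h1
    have h3 : 2 ^ a2 * (p * G p m + 1) = 2 ^ a2 * (G p m + p ^ m) := by rw [hgeom]
    nlinarith

end Q239.Near
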