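import Pool.Agent.Q239.Near.Arith2

set_option autoImplicit false

namespace Q239.Near

/-- The quotient `u = (M - 1) / p ^ f`. -/
theorem caseC_u {p k m a1 a2 f : ℕ} (hm : 1 ≤ m) (hf : f ≤ m)
    (h : 2 ^ (k + 1) * G p m = G p (m + 1) + 2 ^ a1 * p ^ f + 2 ^ a2 * p ^ m) (hp : 3 ≤ p) :
    ∃ u, 2 ^ (k + 1) = u * p ^ f + 1 ∧ u * G p m = p ^ (m - f) * (1 + 2 ^ a2) + 2 ^ a1 := by
  obtain ⟨N, hN⟩ : ∃ N, 2 ^ (k + 1) = N + 1 := ⟨2 ^ (k + 1) - 1, by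
    have : 1 ≤ 2 ^ (k + 1) := Nat.one_le_two_pow
    omega⟩
  have hpm : p ^ m = p ^ f * p ^ (m - f) := by rw [← pow_add]; congr 1; omega
  have h1 : N * G p m = p ^ f * (p ^ (m - f) * (1 + 2 ^ a2) + 2 ^ a1) := by
    rw [hN, G_succ p m] at h
    have e : p ^ f * (p ^ (m - f) * (1 + 2 ^ a2) + 2 ^ a1) = p ^ m * (1 + 2 ^ a2) + 2 ^ a1 * p ^ f := by
      rw [hpm]; ring
    rw [e]
    nlinarith
  obtain ⟨j, rfl⟩ : ∃ j, m = j + 1 := ⟨m - 1, by omega⟩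
  have hcop : Nat.Coprime (p ^ f) (G p (j + 1)) := Nat.Coprime.pow_left _ (coprime_G p j)
  obtain ⟨u, hu⟩ : p ^ f ∣ N := hcop.dvd_of_dvd_mul_right ⟨_, h1⟩
  refine ⟨u, by rw [hN, hu]; ring, ?_⟩
  rw [hu, mul_assoc] at h1
  exact Nat.eq_of_mul_eq_mul_left (by positivity) h1

/-- Case γ1, `f ≥ 2`. -/
theorem caseC1_two {p k a1 a2 f g : ℕ} (hp : 3 ≤ p) (hodd : p % 2 = 1) (ha1 : a1 ≤ k) (ha2 : a2 ≤ k)
    (hMp : p < 2 ^ (k + 1)) (hf : 2 ≤ f) (hg : 2 ≤ g)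
    (h : 2 ^ (k + 1) * G p (f + g) = G p (f + g + 1) + 2 ^ a1 * p ^ f + 2 ^ a2 * p ^ (f + g)) : False := by
  obtain ⟨P, hP, hPp⟩ := caseC_ratio hp hodd ha2 h
  obtain ⟨u, hu, hu2⟩ := caseC_u (by omega) (by omega) h hp
  rw [show f + g - f = g by omega] at hu2
  obtain ⟨f', rfl⟩ : ∃ f', f = f' + 2 := ⟨f - 2, by omega⟩
  obtain ⟨g', rfl⟩ : ∃ g', g = g' + 2 := ⟨g - 2, by omega⟩
  have hB : 2 * 2 ^ a1 ≤ 2 ^ (k + 1) := by
    calc 2 * 2 ^ a1 = 2 ^ (a1 + 1) := by ring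
      _ ≤ 2 ^ (k + 1) := Nat.pow_le_pow_right (by norm_num) (by omega)
  have hA : (p + 1) * 2 ^ a2 ≤ 2 ^ (k + 1) := by rw [hP]; exact Nat.mul_le_mul_right _ hPp
  have hG : p ^ f' * p ^ (g' + 2) * (p + 1) ≤ G p (f' + 2 + (g' + 2)) := by
    have e : p ^ f' * p ^ (g' + 2) * (p + 1) = p ^ (f' + (g' + 2)) + p ^ (f' + (g' + 2) + 1) := by
      rw [pow_succ p (f' + (g' + 2)), pow_add p f' (g' + 2)]; ring
    rw [show f' + 2 + (g' + 2) = (f' + (g' + 2)) + 1 + 1 by ring, G_succ, G_succ, e]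
    omega
  have hu0 : 1 ≤ u := by
    by_contra hne
    have : u = 0 := by omega
    rw [this, zero_mul] at hu
    omega
  have hZ : p ^ 2 ≤ p ^ (g' + 2) := Nat.pow_le_pow_right (by omega) (by omega)
  have hY : 1 ≤ p ^ f' := Nat.one_le_pow _ _ (by omega)
  have hcases : 2 ≤ u * p ^ f' ∨ (u = 1 ∧ p ^ f' = 1) := by
    rcases Nat.lt_or_ge u 2 with h2 | h2
    · have hu1 : u = 1 := by omega
      rcases Nat.lt_or_ge (p ^ f') 2 with h3 | h3
      · right; omega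
      · left; rw [hu1]; omega
    · left
      calc 2 = 2 * 1 := rfl
        _ ≤ u * p ^ f' := Nat.mul_le_mul h2 hY
  rcases hcases with hc | ⟨hc1, hc2⟩
  · rw [pow_add p f' 2] at hu
    have h1 : 2 * (p + 1) * (u * G p (f' + 2 + (g' + 2))) =
      2 * (p + 1) * (p ^ (g' + 2) * (1 + 2 ^ a2) + 2 ^ a1) := by rw [hu2]
    have h2 : 2 * (p + 1) * (u * (p ^ f' * p ^ (g' + 2) * (p + 1))) ≤
      2 * (p + 1) * (u * G p (f' + 2 + (g' + 2))) := by
      apply Nat.mul_le_mul_left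
      exact Nat.mul_le_mul_left _ hG
    have h3 : p ^ (g' + 2) * ((p + 1) * 2 ^ a2) ≤ p ^ (g' + 2) * 2 ^ (k + 1) := Nat.mul_le_mul_left _ hA
    have h4 : (p + 1) * (2 * 2 ^ a1) ≤ (p + 1) * 2 ^ (k + 1) := Nat.mul_le_mul_left _ hB
    rw [hu] at h3 h4
    have h5 : (u * p ^ f') * (p + 1) * p ^ 2 ≤ (u * p ^ f') * (p + 1) * p ^ (g' + 2) :=
      Nat.mul_le_mul_left _ hZ
    generalize p ^ (g' + 2) = Z at *
    generalize 2 ^ a1 = B at *
    generalize 2 ^ a2 = A at *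
    generalize G p (f' + 2 + (g' + 2)) = GG at *
    obtain ⟨y, hy⟩ : ∃ y, u * p ^ f' = y := ⟨_, rfl⟩
    have e1 : u * (p ^ f' * p ^ 2) = y * p ^ 2 := by rw [← hy]; ring
    have e2 : u * (p ^ f' * Z * (p + 1)) = y * (Z * (p + 1)) := by rw [← hy]; ring
    rw [e1] at h3 h4
    rw [e2] at h2
    rw [hy] at h5 hc
    have h6 : y * Z * (3 * p + 1) ≤ 2 * (p + 2) * Z + (p + 1) := by nlinarith
    have h7 : 2 * (Z * (3 * p + 1)) ≤ y * (Z * (3 * p + 1)) := Nat.mul_le_mul_right _ hc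
    nlinarith
  · have hf' : f' = 0 := by
      by_contra hne
      have : p ≤ p ^ f' := Nat.le_self_pow hne p
      omega
    subst hf'
    rw [hc1, one_mul, zero_add] at hu
    exact ne_sq_add_one hodd (by omega) hu

/-- Case γ1, `f = 1`. -/
theorem caseC1_one {p k a1 a2 g : ℕ} (hp : 3 ≤ p) (hodd : p % 2 = 1) (ha1 : a1 ≤ k) (ha2 : a2 ≤ k)
    (hMp : p < 2 ^ (k + 1)) (hg : 2 ≤ g)
    (h : 2 ^ (k + 1) * G p (1 + g) = G p (1 + g + 1) + 2 ^ a1 * p ^ 1 + 2 ^ a2 * p ^ (1 + g)) : False := by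
  obtain ⟨P, hP, hPp⟩ := caseC_ratio hp hodd ha2 h
  obtain ⟨u, hu, hu2⟩ := caseC_u (by omega) (by omega) h hp
  rw [show 1 + g - 1 = g by omega] at hu2
  rw [pow_one] at hu
  have hB : 2 * 2 ^ a1 ≤ 2 ^ (k + 1) := by
    calc 2 * 2 ^ a1 = 2 ^ (a1 + 1) := by ring
      _ ≤ 2 ^ (k + 1) := Nat.pow_le_pow_right (by norm_num) (by omega)
  have hA : (p + 1) * 2 ^ a2 ≤ 2 ^ (k + 1) := by rw [hP]; exact Nat.mul_le_mul_right _ hPp
  have hA1 : 1 ≤ 2 ^ a2 := Nat.one_le_two_pow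
  have hB1 : 1 ≤ 2 ^ a1 := Nat.one_le_two_pow
  have hG1 : p + 1 ≤ G p g := by
    rw [← G_two]
    unfold G
    exact Finset.sum_le_sum_of_subset (Finset.range_mono hg)
  have hgeom := geom p g
  have hu0 : 1 ≤ u := by
    by_contra hne
    have : u = 0 := by omega
    rw [this, zero_mul] at hu
    omega
  rw [show 1 + g = g + 1 by ring, G_succ] at hu2
  have huA : u ≤ 2 ^ a2 := by
    by_contra hne
    have h1 : 1 + 2 ^ a2 ≤ u := by omega
    have h2 : (1 + 2 ^ a2) * p ^ g ≤ u * p ^ g := Nat.mul_le_mul_right _ h1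
    have h3 : u * (p + 1) ≤ u * G p g := Nat.mul_le_mul_left _ hG1
    nlinarith
  have h4 : (p + 1) * u ≤ (p + 1) * 2 ^ a2 := Nat.mul_le_mul_left _ huA
  have h5 : (p + 1) * u ≤ u * p + 1 := by omega
  have hu1 : u = 1 := by nlinarith
  subst hu1
  have h6 : 2 ^ a2 = 1 := by nlinarith
  rw [h6] at hu2
  nlinarith

/-- Case γ1, `f = 0`: then `m = 2`, `p = 3`, `M = 8`. -/
theorem caseC1_zero {p k a1 a2 m : ℕ} (hp : 3 ≤ p) (hodd : p % 2 = 1) (ha1 : a1 ≤ k) (ha2 : a2 ≤ k)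
    (hMp : p < 2 ^ (k + 1)) (hm : 2 ≤ m)
    (h : 2 ^ (k + 1) * G p m = G p (m + 1) + 2 ^ a1 * p ^ 0 + 2 ^ a2 * p ^ m) : m = 2 ∧ p = 3 ∧ k = 2 := by
  obtain ⟨P, hP, hPp⟩ := caseC_ratio hp hodd ha2 h
  obtain ⟨u, hu, hu2⟩ := caseC_u (by omega) (by omega) h hp
  rw [pow_zero, mul_one] at hu
  rw [Nat.sub_zero] at hu2
  have hB : 2 * 2 ^ a1 ≤ 2 ^ (k + 1) := by
    calc 2 * 2 ^ a1 = 2 ^ (a1 + 1) := by ring
      _ ≤ 2 ^ (k + 1) := Nat.pow_le_pow_right (by norm_num) (by omega)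
  have hA : (p + 1) * 2 ^ a2 ≤ 2 ^ (k + 1) := by rw [hP]; exact Nat.mul_le_mul_right _ hPp
  have hA1 : 1 ≤ 2 ^ a2 := Nat.one_le_two_pow
  have hB1 : 1 ≤ 2 ^ a1 := Nat.one_le_two_pow
  have hgeom := geom p m
  obtain ⟨q, rfl⟩ : ∃ q, p = q + 1 := ⟨p - 1, by omega⟩
  -- `q * G + 1 = p ^ m`
  have hgeom' : q * G (q + 1) m + 1 = (q + 1) ^ m := by nlinarith
  -- `M > q A + p`
  have hQ : q * (1 + 2 ^ a2) < u := by
    by_contra hne
    have h1 : u ≤ q * (1 + 2 ^ a2) := by omega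
    have h2 : u * G (q + 1) m ≤ q * (1 + 2 ^ a2) * G (q + 1) m := Nat.mul_le_mul_right _ h1
    rw [← hgeom'] at hu2
    nlinarith
  obtain ⟨Q, hQe⟩ : ∃ Q, u = q * (1 + 2 ^ a2) + Q := ⟨u - q * (1 + 2 ^ a2), by omega⟩
  have hQ1 : 1 ≤ Q := by omega
  have hQG : Q * G (q + 1) m = 1 + 2 ^ a2 + 2 ^ a1 := by
    rw [hQe, ← hgeom'] at hu2
    nlinarith
  -- inequality (1)
  have i1 : 2 * (Q * G (q + 1) m) ≤ 2 + 2 * 2 ^ a2 + (q * (1 + 2 ^ a2) + Q + 1) := by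
    rw [hQG]; omega
  have i2 : (q + 1 + 1) * 2 ^ a2 ≤ q * (1 + 2 ^ a2) + Q + 1 := by omega
  have i2' : 2 * 2 ^ a2 ≤ q + Q + 1 := by nlinarith
  rcases Nat.lt_or_ge m 3 with hm3 | hm3
  · have hm2 : m = 2 := by omega
    subst hm2
    rw [G_two] at hQG i1
    have hMmod := two_pow_mod4 (k := k) (by omega)
    have hq2 : q % 2 = 0 := by omega
    have hQodd : Q % 2 = 1 := by
      obtain ⟨t, ht⟩ : ∃ t, q = 2 * t := ⟨q / 2, by omega⟩
      have : q * (1 + 2 ^ a2) = 2 * (t * (1 + 2 ^ a2)) := by rw [ht]; ring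
      omega
    have hAB : (2 ^ a2 + 2 ^ a1) % 2 = 1 := by
      obtain ⟨t, ht⟩ : ∃ t, q + 1 + 1 = 2 * t := ⟨(q + 1 + 1) / 2, by omega⟩
      have : Q * (q + 1 + 1) = 2 * (Q * t) := by rw [ht]; ring
      omega
    have hcase : 2 ^ a2 = 1 ∨ 2 ^ a1 = 1 := by
      by_contra hne
      push Not at hne
      have h1 : 2 ∣ 2 ^ a2 := by
        by_contra h2; exact hne.1 (odd_pow_two h2)
      have h1 : 2 ∣ 2 ^ a1 := by
        by_contra h2; exact hne.2 (odd_pow_two h2)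
      omega
    rcases hcase with hA' | hB'
    · exfalso
      rw [hA'] at i1 i2' hQe
      have hQ2 : Q < 2 := by
        by_contra hne
        have : 3 ≤ Q := by omega
        have : 3 * q ≤ Q * q := Nat.mul_le_mul_right _ this
        nlinarith
      have : Q = 1 := by omega
      have hM : 2 ^ (k + 1) = 2 * (q + 1) := by omega
      have : 2 ^ k = q + 1 := by
        have : 2 ^ (k + 1) = 2 * 2 ^ k := by ring
        omega
      exact two_pow_ne (by omega) (by omega) this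
    · rw [hB'] at hQG
      have hQ2 : Q < 2 := by
        by_contra hne
        have : 2 ≤ Q := by omega
        nlinarith
      have hQ1' : Q = 1 := by omega
      rw [hQ1', one_mul] at hQG
      have hAq : 2 ^ a2 = q := by omega
      have hM : 2 ^ (k + 1) = q * (1 + q) + 1 + 1 := by rw [hu, hQe, hQ1', hAq]
      rcases Nat.lt_or_ge q 3 with hq3 | hq3
      · have : q = 2 := by omega
        subst this
        refine ⟨rfl, rfl, ?_⟩
        have : 2 ^ (k + 1) = 2 ^ 3 := by rw [hM]; norm_num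
        have := Nat.pow_right_injective (le_refl 2) this
        omega
      · exfalso
        have h4 : 4 ∣ 2 ^ a2 := by
          have h5 : 2 * 2 ^ 1 ≤ 2 ^ a2 := two_pow_double (by omega)
          simpa using two_pow_dvd (a := 2) (b := a2) (by omega)
        obtain ⟨t, ht⟩ := h4
        rw [hAq] at ht
        have : q * (1 + q) = 4 * (t * (1 + q)) := by rw [ht]; ring
        omega
  · exfalso
    have hG : 1 + (q + 1) + (q + 1) ^ 2 ≤ G (q + 1) m := G_ge hm3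
    have h1 : Q * (1 + (q + 1) + (q + 1) ^ 2) ≤ Q * G (q + 1) m := Nat.mul_le_mul_left _ hG
    have h2 : q * (2 * 2 ^ a2) ≤ q * (q + Q + 1) := Nat.mul_le_mul_left _ i2'
    nlinarith [Nat.mul_le_mul_right (q ^ 2) hQ1, Nat.mul_le_mul_right q hQ1]

/-- Case γ2, `f = m - 1`, `m = 2`: then `p = 5` and `M = 16`. -/
theorem caseC2_two {p k a1 a2 : ℕ} (hp : 3 ≤ p) (hodd : p % 2 = 1) (ha1 : a1 ≤ k) (ha2 : a2 ≤ k)
    (hMp : p < 2 ^ (k + 1))
    (h : 2 ^ (k + 1) * G p 2 = G p (2 + 1) + 2 ^ a1 * p ^ 1 + 2 ^ a2 * p ^ 2) : p = 5 ∧ k = 3 := by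
  obtain ⟨P, hP, hPp⟩ := caseC_ratio hp hodd ha2 h
  obtain ⟨u, hu, hu2⟩ := caseC_u (by omega) (by omega) h hp
  rw [show 2 - 1 = 1 by rfl] at hu2
  rw [pow_one] at hu hu2
  rw [G_two] at hu2
  have hB : 2 * 2 ^ a1 ≤ 2 ^ (k + 1) := by
    calc 2 * 2 ^ a1 = 2 ^ (a1 + 1) := by ring
      _ ≤ 2 ^ (k + 1) := Nat.pow_le_pow_right (by norm_num) (by omega)
  have hA : (p + 1) * 2 ^ a2 ≤ 2 ^ (k + 1) := by rw [hP]; exact Nat.mul_le_mul_right _ hPp
  have hA1 : 1 ≤ 2 ^ a2 := Nat.one_le_two_pow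
  have hB1 : 1 ≤ 2 ^ a1 := Nat.one_le_two_pow
  have hMmod := two_pow_mod4 (k := k) (by omega)
  have huodd : u % 2 = 1 := by
    by_contra hne
    obtain ⟨t, ht⟩ : ∃ t, u = 2 * t := ⟨u / 2, by omega⟩
    rw [ht, mul_assoc] at hu
    omega
  have hAB : (2 ^ a2 + 2 ^ a1) % 2 = 1 := by
    obtain ⟨t, ht⟩ : ∃ t, p = 2 * t + 1 := ⟨p / 2, by omega⟩
    have e1 : u * (p + 1) = 2 * (u * (t + 1)) := by rw [ht]; ring
    have e2 : p * (1 + 2 ^ a2) = 1 + 2 ^ a2 + 2 * (t * (1 + 2 ^ a2)) := by rw [ht]; ring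
    omega
  have hcase : 2 ^ a2 = 1 ∨ 2 ^ a1 = 1 := by
    by_contra hne
    push Not at hne
    have h1 : 2 ∣ 2 ^ a2 := by
      by_contra h2; exact hne.1 (odd_pow_two h2)
    have h1 : 2 ∣ 2 ^ a1 := by
      by_contra h2; exact hne.2 (odd_pow_two h2)
    omega
  rcases hcase with hA' | hB'
  · rw [hA'] at hu2
    have hu4 : u < 4 := by
      by_contra hne
      have : 4 * (p + 2) ≤ u * (p + 2) := Nat.mul_le_mul_right _ (by omega)
      nlinarith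
    have hu3 : u = 3 := by
      have : u ≠ 1 := by
        rintro rfl
        omega
      omega
    subst hu3
    have hBp : 2 ^ a1 = p + 3 := by omega
    rcases Nat.lt_or_ge p 6 with hp6 | hp6
    · have hp5 : p = 5 := by
        have : p ≠ 3 := by
          rintro rfl
          have h8 : 4 < 2 ^ a1 := by omega
          have h9 : 2 * 2 ^ 2 ≤ 2 ^ a1 := two_pow_double (by simpa using h8)
          omega
        omega
      subst hp5
      refine ⟨rfl, ?_⟩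
      have : 2 ^ (k + 1) = 2 ^ 4 := by rw [hu]; norm_num
      have := Nat.pow_right_injective (le_refl 2) this
      omega
    · exfalso
      have h16 : 2 * 2 ^ 3 ≤ 2 ^ a1 := two_pow_double (by omega)
      have h16' : 16 ∣ 2 ^ a1 := by
        simpa using two_pow_dvd (a := 4) (b := a1) (by simpa using h16)
      have hM16 : 16 ∣ 2 ^ (k + 1) := by
        have : 2 ^ 4 ≤ 2 ^ (k + 1) := by omega
        simpa using two_pow_dvd (a := 4) (b := k + 1) this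
      omega
  · exfalso
    rw [hB'] at hu2
    have h1 : (p + 1) ∣ p * 2 ^ a2 + (p + 1) := ⟨u, by rw [mul_comm (p + 1) u, hu2]; ring⟩
    have h2 : (p + 1) ∣ p * 2 ^ a2 := (Nat.dvd_add_left (dvd_refl _)).1 h1
    have h3 : Nat.Coprime (p + 1) p := by simp
    obtain ⟨c, hc⟩ := h3.dvd_of_dvd_mul_left h2
    have hc1 : 1 ≤ c := by
      by_contra hne
      have : c = 0 := by omega
      rw [this, mul_zero] at hc
      omega
    rw [hc] at hu2 hA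
    have hu' : u = p * c + 1 := by
      have : (p + 1) * u = (p + 1) * (p * c + 1) := by nlinarith
      exact Nat.eq_of_mul_eq_mul_left (by omega) this
    rw [hu, hu'] at hA
    nlinarith

theorem caseC2_final_one {q t c : ℕ} (ht : 2 ≤ t) (hc : 1 ≤ c) (h2t : 2 * t ≤ q + 2)
    (key2 : c * (q + 1) ^ 2 + 1 = ((q + 1) ^ 2 + c) * t) : False := by
  have hct : t < c := by
    by_contra hne
    have h1 : c * (q + 1) ^ 2 ≤ t * (q + 1) ^ 2 := Nat.mul_le_mul_right _ (by omega)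
    have h2 : 1 * 2 ≤ c * t := Nat.mul_le_mul hc ht
    linarith
  obtain ⟨d, rfl⟩ : ∃ d, c = t + d := ⟨c - t, by omega⟩
  have hd : 1 ≤ d := by omega
  have h1 : d * (q + 1) ^ 2 + 1 = t ^ 2 + d * t := by linarith
  have h2 : t < (q + 1) ^ 2 := by
    have : (q + 1) ^ 2 = q ^ 2 + 2 * q + 1 := by ring
    have := Nat.zero_le (q ^ 2)
    omega
  obtain ⟨z, hz⟩ : ∃ z, (q + 1) ^ 2 = t + z := ⟨(q + 1) ^ 2 - t, by omega⟩
  have h3 : d * z + 1 = t ^ 2 := by rw [hz] at h1; linarith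
  have h4 : 1 * z ≤ d * z := Nat.mul_le_mul_right _ hd
  have h5 : (2 * t) * (2 * t) ≤ (q + 2) * (q + 2) := Nat.mul_le_mul h2t h2t
  nlinarith

theorem caseC2_final_two {q t c Y : ℕ} (hq : 2 ≤ q) (hc : 1 ≤ c) (h2t : 2 * t ≤ q + 2)
    (hY : (q + 1) ^ 3 ≤ Y) (key2 : c * Y + 1 = ((q + 1) ^ 2 + c) * t) : False := by
  have h2 : t ≤ Y := by nlinarith
  obtain ⟨z, rfl⟩ : ∃ z, Y = t + z := ⟨Y - t, by omega⟩
  have h3 : c * z + 1 = (q + 1) ^ 2 * t := by linarith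
  have h4 : 1 * z ≤ c * z := Nat.mul_le_mul_right _ hc
  have h5 : (q + 1) ^ 2 * (2 * t) ≤ (q + 1) ^ 2 * (q + 2) := Nat.mul_le_mul_left _ h2t
  nlinarith

theorem caseC2_final {q w t A Y H u n : ℕ} (hq : 2 ≤ q) (hw : 2 ≤ w) (ht : 2 ≤ t) (hA : 1 ≤ A)
    (hqw : q + w = w * t) (hqH : q * H + 1 = Y) (huY : u * Y + 1 = w * t * A)
    (hAe : A + (1 + (q + 1)) = u * H) (hY : Y = (q + 1) ^ (n + 1)) (hn : 1 ≤ n) : False := by
  have h2t : 2 * t ≤ q + 2 := by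
    have : 2 * t + w ≤ w * t + 2 := by
      obtain ⟨w', rfl⟩ : ∃ w', w = w' + 2 := ⟨w - 2, by omega⟩
      have h1 : w' * 1 ≤ w' * t := Nat.mul_le_mul_left w' (by omega)
      linarith
    omega
  have key : (q + 1) ^ 2 * Y + w * t * A = w * A * Y + 1 := by
    have h3 : q * (A + (1 + (q + 1))) * Y = q * (u * H) * Y := by rw [hAe]
    have h4 : q * (u * H) * Y + q * H = (w * t * A) * (q * H) := by rw [← huY]; ring
    have h5 : (w * t * A) * (q * H) + w * t * A = w * t * A * Y := by rw [← hqH]; ring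
    have h6 : (q + w) * A * Y = w * t * A * Y := by rw [hqw]
    linarith
  have hwA : (q + 1) ^ 2 < w * A := by
    by_contra hne
    have h1 : w * A * Y ≤ (q + 1) ^ 2 * Y := Nat.mul_le_mul_right _ (by omega)
    have h2 : 2 * 2 ≤ w * t := Nat.mul_le_mul hw ht
    have h3 : 2 * 2 * 1 ≤ w * t * A := Nat.mul_le_mul h2 hA
    omega
  obtain ⟨c, hc⟩ : ∃ c, w * A = (q + 1) ^ 2 + c := ⟨w * A - (q + 1) ^ 2, by omega⟩
  have hc1 : 1 ≤ c := by omega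
  have key2 : c * Y + 1 = ((q + 1) ^ 2 + c) * t := by
    have e1 : w * t * A = (w * A) * t := by ring
    rw [e1, hc] at key
    linarith
  rcases Nat.lt_or_ge n 2 with hn2 | hn2
  · have hn1 : n = 1 := by omega
    subst hn1
    have hYe : Y = (q + 1) ^ 2 := hY
    rw [hYe] at key2
    exact caseC2_final_one ht hc1 h2t key2
  · have hY3 : (q + 1) ^ 3 ≤ Y := by rw [hY]; exact Nat.pow_le_pow_right (by omega) (by omega)
    exact caseC2_final_two hq hc1 h2t hY3 key2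

theorem caseC2_e {q P A Y H u e : ℕ} (he : 1 ≤ e) (hP : P ≤ q) (hA : 1 ≤ A) (hqH : q * H + 1 = Y)
    (huY : u * Y + 1 = 2 * P * A) (hAe : A * e + (1 + (q + 1)) = u * H) : e = 1 := by
  by_contra hne
  have h2 : 2 ≤ e := by omega
  have h3 : A * e * Y + (1 + (q + 1)) * Y = u * H * Y := by rw [← hAe]; ring
  have h4 : u * H * Y + H = 2 * P * A * H := by rw [← huY]; ring
  have h5 : A * 2 * Y ≤ A * e * Y := Nat.mul_le_mul_right _ (Nat.mul_le_mul_left _ h2)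
  have h6 : P * (2 * A * H) ≤ q * (2 * A * H) := Nat.mul_le_mul_right _ hP
  have h7 : q * (2 * A * H) + 2 * A = 2 * A * Y := by rw [← hqH]; ring
  have h8 := Nat.zero_le ((1 + (q + 1)) * Y)
  linarith

/-- Case γ2, `f = m - 1`, `m ≥ 3`: impossible. -/
theorem caseC2_ge {p k a1 a2 n : ℕ} (hp : 3 ≤ p) (hodd : p % 2 = 1) (ha1 : a1 ≤ k) (ha2 : a2 ≤ k)
    (hMp : p < 2 ^ (k + 1)) (hn : 1 ≤ n)
    (h : 2 ^ (k + 1) * G p (n + 2) = G p (n + 2 + 1) + 2 ^ a1 * p ^ (n + 1) + 2 ^ a2 * p ^ (n + 2)) :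
    False := by
  obtain ⟨P, hP, hPp⟩ := caseC_ratio hp hodd ha2 h
  obtain ⟨u, hu, hu2⟩ := caseC_u (by omega) (by omega) h hp
  rw [show n + 2 - (n + 1) = 1 by omega, pow_one] at hu2
  rw [show n + 2 = (n + 1) + 1 by ring, G_succ] at hu2
  have hB : 2 * 2 ^ a1 ≤ 2 ^ (k + 1) := by
    calc 2 * 2 ^ a1 = 2 ^ (a1 + 1) := by ring
      _ ≤ 2 ^ (k + 1) := Nat.pow_le_pow_right (by norm_num) (by omega)
  have hA1 : 1 ≤ 2 ^ a2 := Nat.one_le_two_pow
  have hB1 : 1 ≤ 2 ^ a1 := Nat.one_le_two_pow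
  have hPne : 2 ^ P ≠ p := two_pow_ne hp hodd
  have hgeom := geom p (n + 1)
  have hH : p + 1 ≤ G p (n + 1) := by
    rw [← G_two]
    unfold G
    exact Finset.sum_le_sum_of_subset (Finset.range_mono (by omega))
  have hu0 : 1 ≤ u := by
    by_contra hne
    have : u = 0 := by omega
    rw [this, zero_mul] at hu
    omega
  -- `u H ≥ p + 2`
  have huH : p + 2 ≤ u * G p (n + 1) := by
    rcases Nat.lt_or_ge u 2 with h2 | h2
    · have hu1 : u = 1 := by omega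
      rw [hu1, one_mul]
      rcases Nat.lt_or_ge n 2 with h3 | h3
      · exfalso
        have hn1 : n = 1 := by omega
        subst hn1
        rw [hu1, one_mul] at hu
        exact ne_sq_add_one hodd (by omega) hu
      · have := G_ge (p := p) (m := n + 1) (by omega)
        nlinarith
    · have : 2 * (p + 1) ≤ u * G p (n + 1) := Nat.mul_le_mul h2 hH
      omega
  -- (‡)
  have hdag : 2 ^ (k + 1) + u * G p (n + 1) = 1 + p + p * 2 ^ a2 + 2 ^ a1 := by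
    rw [hu]; linarith
  have hPlt : 2 ^ P < p := by
    by_contra hne
    have h1 : p + 1 ≤ 2 ^ P := by omega
    have h2 : (p + 1) * 2 ^ a2 ≤ 2 ^ P * 2 ^ a2 := Nat.mul_le_mul_right _ h1
    rw [hP] at hB hdag
    linarith
  -- `B > A`
  have hBA : 2 ^ a2 < 2 ^ a1 := by
    have h2 : (p + 1) * 2 ^ a2 ≤ 2 * 2 ^ P * 2 ^ a2 := Nat.mul_le_mul_right _ hPp
    rw [hP] at hdag
    linarith
  obtain ⟨j, hj⟩ : ∃ j, a1 = a2 + j := ⟨a1 - a2, by
    have := (Nat.pow_lt_pow_iff_right (by norm_num : 1 < 2)).1 hBA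
    omega⟩
  have hBj : 2 ^ a1 = 2 ^ j * 2 ^ a2 := by rw [hj, pow_add]; ring
  -- `w = 2 ^ j ≤ P`, and `2 P = w t`
  have hjP : 2 ^ j ≤ 2 ^ P := by
    rw [hP, hBj] at hB
    have : 2 ^ j * 2 ^ a2 ≤ 2 ^ P * 2 ^ a2 := by linarith
    exact Nat.le_of_mul_le_mul_right this (by omega)
  obtain ⟨i, hi⟩ : ∃ i, P = j + i := ⟨P - j, by
    have := (Nat.pow_le_pow_iff_right (by norm_num : 1 < 2)).1 hjP
    omega⟩
  have hPj : 2 ^ P = 2 ^ j * 2 ^ i := by rw [hi, pow_add]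
  have hj1 : 2 ≤ 2 ^ j := by
    rw [hBj] at hBA
    by_contra hne
    have : 2 ^ j * 2 ^ a2 ≤ 1 * 2 ^ a2 := Nat.mul_le_mul_right _ (by omega)
    omega
  have hi1 : 1 ≤ 2 ^ i := Nat.one_le_two_pow
  obtain ⟨Y, hY⟩ : ∃ Y, Y = p ^ (n + 1) := ⟨_, rfl⟩
  obtain ⟨H, hHd⟩ : ∃ H, H = G p (n + 1) := ⟨_, rfl⟩
  have hY2 : p ^ 2 ≤ Y := by rw [hY]; exact Nat.pow_le_pow_right (by omega) (by omega)
  rw [← hY, ← hHd] at hgeom
  rw [← hHd] at huH hdag hH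
  rw [← hY] at hu
  -- `2 P < p + w`
  have hlt : 2 * 2 ^ P < p + 2 ^ j := by
    by_contra hne
    have h1 : (p + 2 ^ j) * 2 ^ a2 ≤ 2 * 2 ^ P * 2 ^ a2 := Nat.mul_le_mul_right _ (by omega)
    rw [hP, hBj] at hdag
    linarith
  obtain ⟨e, he⟩ : ∃ e, p + 2 ^ j = 2 * 2 ^ P + e := ⟨p + 2 ^ j - 2 * 2 ^ P, by omega⟩
  have hAe : 2 ^ a2 * e + (1 + p) = u * H := by
    rw [hP, hBj] at hdag
    have : (p + 2 ^ j) * 2 ^ a2 = (2 * 2 ^ P + e) * 2 ^ a2 := by rw [he]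
    linarith
  have huY : u * Y + 1 = 2 * 2 ^ P * 2 ^ a2 := by rw [← hP, hu]
  obtain ⟨q, rfl⟩ : ∃ q, p = q + 1 := ⟨p - 1, by omega⟩
  have hqH : q * H + 1 = Y := by linarith
  have he1 : e = 1 := by
    have he1' : 1 ≤ e := by omega
    exact caseC2_e he1' (by omega) hA1 hqH huY hAe
  subst he1
  rw [mul_one] at hAe
  -- now `A + (1 + p) = u H`, `p + w = 2 P + 1`, `2 P = w t`
  have hPt : 2 * 2 ^ P = 2 ^ j * (2 * 2 ^ i) := by rw [hPj]; ring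
  rw [hPt] at he huY
  exact caseC2_final (t := 2 * 2 ^ i) (by omega) hj1 (by omega) hA1 (by omega) hqH huY hAe hY hn

end Q239.Near
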